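import Mathlib

/-!
# Binomial linear relations of coloured Gaussian cycle models need not come from symmetries

For every even `n ≥ 4` colour the vertices of the `n`-cycle alternately with two colours and give
all edges one colour, except the edge `{0, n - 1}`, which gets a colour of its own.  This coloured
cycle has no symmetry except the identity, but the linear binomial `x_{0,1} - x_{n-2,n-1}` vanishes
on all inverses `K⁻¹` of invertible matrices `K` of its linear space.
-/

namespace Pool.Agent.Results.MP_c04d7c_ag.EvenCycles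

open MvPolynomial

/-- A coloured graph on the vertex set `{0, …, m - 1}`: a simple graph, the colours of its vertices
and the colours of its edges (only the values of `ecol` at edges are used). -/
structure ColouredGraph (m : ℕ) where
  graph : SimpleGraph (Fin m)
  vcol : Fin m → ℕ
  ecol : Sym2 (Fin m) → ℕ

/-- The linear space of `G`: the real symmetric matrices `K` with `K i j = 0` for distinct
nonadjacent `i, j`, with equal diagonal entries at vertices of the same colour and equal entries at
edges of the same colour. -/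
def linearSpace {m : ℕ} (G : ColouredGraph m) : Set (Matrix (Fin m) (Fin m) ℝ) :=
  {K | K.IsSymm ∧ (∀ i j, i ≠ j → ¬ G.graph.Adj i j → K i j = 0) ∧
    (∀ i j, G.vcol i = G.vcol j → K i i = K j j) ∧
    ∀ i j k l, G.graph.Adj i j → G.graph.Adj k l → G.ecol s(i, j) = G.ecol s(k, l) →
      K i j = K k l}

/-- `f` lies in the vanishing ideal of `{K⁻¹ : K ∈ L_G invertible}`; the variable `x_ij = x_ji` is
`X s(i, j)`, and it takes the value `K⁻¹ i j` for `i ≤ j`. -/
def Vanishes {m : ℕ} (G : ColouredGraph m) (f : MvPolynomial (Sym2 (Fin m)) ℝ) : Prop :=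
  ∀ K ∈ linearSpace G, IsUnit K → eval (fun p : Sym2 (Fin m) => K⁻¹ p.inf p.sup) f = 0

/-- A symmetry of `G`: an automorphism of the graph which maps every vertex to a vertex of the same
colour and every edge to an edge of the same colour. -/
def IsSymmetry {m : ℕ} (G : ColouredGraph m) (σ : Equiv.Perm (Fin m)) : Prop :=
  (∀ i j, G.graph.Adj (σ i) (σ j) ↔ G.graph.Adj i j) ∧ (∀ i, G.vcol (σ i) = G.vcol i) ∧
    ∀ i j, G.graph.Adj i j → G.ecol s(σ i, σ j) = G.ecol s(i, j)

/-- `f` is induced by symmetries: it is a linear combination of forms `x_ij - x_σ(i)σ(j)`. -/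
def InducedBySymmetries {m : ℕ} (G : ColouredGraph m) (f : MvPolynomial (Sym2 (Fin m)) ℝ) : Prop :=
  f ∈ Submodule.span ℝ {g : MvPolynomial (Sym2 (Fin m)) ℝ |
    ∃ σ, IsSymmetry G σ ∧ ∃ i j, g = X s(i, j) - X s(σ i, σ j)}

/-- `f` is a binomial linear form: a linear form with exactly two nonzero coefficients. -/
def IsBinomialForm {m : ℕ} (f : MvPolynomial (Sym2 (Fin m)) ℝ) : Prop :=
  f.IsHomogeneous 1 ∧ f.support.card = 2

/-- The statement of Q1: for every `n ≥ 3` and every coloured `n`-cycle, every binomial linear form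
in the vanishing ideal is induced by symmetries. -/
def Statement : Prop :=
  ∀ n : ℕ, 3 ≤ n → ∀ G : ColouredGraph n, G.graph = SimpleGraph.cycleGraph n →
    ∀ f : MvPolynomial (Sym2 (Fin n)) ℝ, IsBinomialForm f → Vanishes G f →
      InducedBySymmetries G f

/-- The coloured `n`-cycle with alternating vertex colours, in which the edge `{0, n - 1}` has a
colour of its own and all the other edges have the same colour. -/
def altCycle (n : ℕ) : ColouredGraph n where
  graph := SimpleGraph.cycleGraph n
  vcol i := i.val % 2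
  ecol e := if e.inf.val = 0 ∧ e.sup.val = n - 1 then 1 else 0

theorem adj_iff {n : ℕ} (hn : 4 ≤ n) (i j : Fin n) : (SimpleGraph.cycleGraph n).Adj i j ↔
    (i.val + 1 = j.val ∨ j.val + 1 = i.val ∨ (i.val = 0 ∧ j.val = n - 1) ∨
      (j.val = 0 ∧ i.val = n - 1)) := by
  rw [SimpleGraph.cycleGraph_adj', Fin.val_sub, Fin.val_sub]
  have hi := i.isLt
  have hj := j.isLt
  constructor
  · rintro (h | h)
    · by_cases hlt : i.val < j.val
      · rw [Nat.mod_eq_of_lt (by omega)] at h
        omega
      · have e : n - j.val + i.val = (i.val - j.val) + n := by omega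
        rw [e, Nat.add_mod_right, Nat.mod_eq_of_lt (by omega)] at h
        omega
    · by_cases hlt : j.val < i.val
      · rw [Nat.mod_eq_of_lt (by omega)] at h
        omega
      · have e : n - i.val + j.val = (j.val - i.val) + n := by omega
        rw [e, Nat.add_mod_right, Nat.mod_eq_of_lt (by omega)] at h
        omega
  · rintro (h | h | h | h)
    · right
      have e : n - i.val + j.val = 1 + n := by omega
      rw [e, Nat.add_mod_right, Nat.mod_eq_of_lt (by omega)]
    · left
      have e : n - j.val + i.val = 1 + n := by omega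
      rw [e, Nat.add_mod_right, Nat.mod_eq_of_lt (by omega)]
    · left
      have e : n - j.val + i.val = 1 := by omega
      rw [e, Nat.mod_eq_of_lt (by omega)]
    · right
      have e : n - i.val + j.val = 1 := by omega
      rw [e, Nat.mod_eq_of_lt (by omega)]

theorem ecol_iff {n : ℕ} (i j : Fin n) : (altCycle n).ecol s(i, j) =
    if (i.val = 0 ∧ j.val = n - 1) ∨ (j.val = 0 ∧ i.val = n - 1) then 1 else 0 := by
  have hi := i.isLt
  have hj := j.isLt
  change (if (min i j).val = 0 ∧ (max i j).val = n - 1 then 1 else 0) = _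
  rcases le_total i j with h | h
  · rw [min_eq_left h, max_eq_right h]
    have h' : i.val ≤ j.val := h
    congr 1
    apply propext
    constructor
    · exact fun h => Or.inl h
    · rintro (h | h)
      · exact h
      · constructor <;> omega
  · rw [min_eq_right h, max_eq_left h]
    have h' : j.val ≤ i.val := h
    congr 1
    apply propext
    constructor
    · exact fun h => Or.inr h
    · rintro (h | h)
      · constructor <;> omega
      · exact h

/-- The only symmetry is the identity. -/
theorem symmetry_eq {n : ℕ} (hn : 4 ≤ n) (he : Even n) {σ : Equiv.Perm (Fin n)}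
    (hσ : IsSymmetry (altCycle n) σ) : σ = 1 := by
  obtain ⟨h1, h2, h3⟩ := hσ
  obtain ⟨q, hq⟩ := he
  have h1' : ∀ i j : Fin n, (SimpleGraph.cycleGraph n).Adj i j →
      (SimpleGraph.cycleGraph n).Adj (σ i) (σ j) := fun i j h => (h1 i j).2 h
  have h2' : ∀ i : Fin n, (σ i).val % 2 = i.val % 2 := fun i => h2 i
  have hspec := h3 ⟨0, by omega⟩ ⟨n - 1, by omega⟩ ((adj_iff hn _ _).2 (by simp))
  rw [ecol_iff, ecol_iff] at hspec
  simp only [and_self, true_or, if_true] at hspec
  have hends : ((σ ⟨0, by omega⟩).val = 0 ∧ (σ ⟨n - 1, by omega⟩).val = n - 1) := by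
    by_cases hc : ((σ ⟨0, by omega⟩).val = 0 ∧ (σ ⟨n - 1, by omega⟩).val = n - 1) ∨
        ((σ ⟨n - 1, by omega⟩).val = 0 ∧ (σ ⟨0, by omega⟩).val = n - 1)
    · rcases hc with h | h
      · exact h
      · have := h2' ⟨0, by omega⟩
        simp only at this
        omega
    · rw [if_neg hc] at hspec
      omega
  have key : ∀ k : ℕ, ∀ hk : k < n, (σ ⟨k, hk⟩).val = k := by
    intro k
    induction k using Nat.strong_induction_on with
    | _ k ih =>
      intro hk
      rcases Nat.eq_zero_or_pos k with h0 | h0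
      · subst h0
        exact hends.1
      · have hadj := h1' ⟨k - 1, by omega⟩ ⟨k, hk⟩ ((adj_iff hn _ _).2 (by
          left
          simp only
          omega))
        rw [adj_iff hn] at hadj
        have hk1 := ih (k - 1) (by omega) (by omega)
        rw [hk1] at hadj
        have hlt := (σ ⟨k, hk⟩).isLt
        rcases hadj with h | h | h | h
        · omega
        · exfalso
          have hk2 := ih (k - 2) (by omega) (by omega)
          have e : σ ⟨k, hk⟩ = σ ⟨k - 2, by omega⟩ := Fin.ext (by rw [hk2]; omega)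
          have e2 := congrArg Fin.val (σ.injective e)
          simp only at e2
          omega
        · by_cases hkn : k = n - 1
          · omega
          · exfalso
            have e : σ ⟨k, hk⟩ = σ ⟨n - 1, by omega⟩ := Fin.ext (by rw [hends.2]; omega)
            have e2 := congrArg Fin.val (σ.injective e)
            simp only at e2
            omega
        · omega
  ext i
  rw [Equiv.Perm.one_apply]
  exact key i.val i.isLt

/-- The reversal `i ↦ n - 1 - i` exchanges the two vertex colours, but it preserves the entries of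
`K⁻¹` at pairs of vertices of different colours. -/
theorem inv_rev {n : ℕ} (hn : 4 ≤ n) (he : Even n) {K : Matrix (Fin n) (Fin n) ℝ}
    (hK : K ∈ linearSpace (altCycle n)) (hu : IsUnit K) {i j : Fin n} (hi : i.val % 2 = 0)
    (hj : j.val % 2 = 1) : K⁻¹ i j = K⁻¹ i.rev j.rev := by
  obtain ⟨hsymm, hzero, hvert, hedge⟩ := hK
  obtain ⟨q, hq⟩ := he
  set K' : Matrix (Fin n) (Fin n) ℝ := K.submatrix Fin.revPerm Fin.revPerm with hK'
  set a : ℝ := K ⟨0, by omega⟩ ⟨0, by omega⟩ with ha
  set b : ℝ := K ⟨1, by omega⟩ ⟨1, by omega⟩ with hb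
  have hda : ∀ i : Fin n, i.val % 2 = 0 → K i i = a := fun i hi => hvert _ _ hi
  have hdb : ∀ i : Fin n, i.val % 2 = 1 → K i i = b := fun i hi => hvert _ _ hi
  have hK'' : ∀ i j, K' i j = K i.rev j.rev := fun i j => rfl
  have hrev : ∀ i : Fin n, (i.rev.val % 2 = 1 ↔ i.val % 2 = 0) ∧
      (i.rev.val % 2 = 0 ↔ i.val % 2 = 1) := by
    intro i
    have := i.isLt
    rw [Fin.val_rev]
    omega
  -- entries off the diagonal agree
  have hoff : ∀ i j, i ≠ j → K i j = K' i j := by
    intro i j hij
    rw [hK'']
    have hir : i.rev ≠ j.rev := fun h => hij (Fin.rev_injective h)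
    have hiff : (SimpleGraph.cycleGraph n).Adj i j ↔
        (SimpleGraph.cycleGraph n).Adj i.rev j.rev := by
      rw [adj_iff hn, adj_iff hn, Fin.val_rev, Fin.val_rev]
      have := i.isLt
      have := j.isLt
      omega
    by_cases hadj : (SimpleGraph.cycleGraph n).Adj i j
    · refine hedge _ _ _ _ hadj (hiff.1 hadj) ?_
      rw [ecol_iff, ecol_iff, Fin.val_rev, Fin.val_rev]
      have := i.isLt
      have := j.isLt
      congr 1
      apply propext
      omega
    · rw [hzero i j hij hadj, hzero _ _ hir fun h => hadj (hiff.2 h)]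
  have hadj2 : ∀ i j : Fin n, i ≠ j → K i j ≠ 0 → i.val % 2 ≠ j.val % 2 := by
    intro i j hij h hpar
    by_cases hadj : (SimpleGraph.cycleGraph n).Adj i j
    · rw [adj_iff hn] at hadj
      have := i.isLt
      have := j.isLt
      omega
    · exact h (hzero i j hij hadj)
  have hmul : Matrix.diagonal (fun i : Fin n => if i.val % 2 = 0 then b else a) * K =
      K' * Matrix.diagonal (fun i : Fin n => if i.val % 2 = 0 then a else b) := by
    ext i j
    rw [Matrix.diagonal_mul, Matrix.mul_diagonal]
    by_cases hij : i = j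
    · subst hij
      rw [hK'']
      rcases Nat.mod_two_eq_zero_or_one i.val with h | h
      · rw [if_pos h, if_pos h, hda i h, hdb _ ((hrev i).1.2 h)]
      · rw [if_neg (by omega), if_neg (by omega), hdb i h, hda _ ((hrev i).2.2 h)]
    · rw [← hoff i j hij]
      by_cases h0 : K i j = 0
      · rw [h0, mul_zero, zero_mul]
      · have hp := hadj2 i j hij h0
        rcases Nat.mod_two_eq_zero_or_one i.val with h | h
        · rw [if_pos h, if_neg (by omega), mul_comm]
        · rw [if_neg (by omega), if_pos (by omega), mul_comm]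
  have hdet : IsUnit K.det := (Matrix.isUnit_iff_isUnit_det K).1 hu
  have hinv' : K'⁻¹ = K⁻¹.submatrix Fin.revPerm Fin.revPerm := by
    rw [hK', Matrix.inv_submatrix_equiv]
  have hdet' : IsUnit K'.det := by
    rw [hK', Matrix.det_submatrix_equiv_self]
    exact hdet
  have hmul2 : K'⁻¹ * Matrix.diagonal (fun i : Fin n => if i.val % 2 = 0 then b else a) =
      Matrix.diagonal (fun i : Fin n => if i.val % 2 = 0 then a else b) * K⁻¹ := by
    have h1 : K'⁻¹ * (Matrix.diagonal (fun i : Fin n => if i.val % 2 = 0 then b else a) * K) *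
        K⁻¹ = K'⁻¹ * (K' * Matrix.diagonal (fun i : Fin n => if i.val % 2 = 0 then a else b)) *
        K⁻¹ := by rw [hmul]
    rw [Matrix.mul_assoc, Matrix.mul_assoc, Matrix.mul_nonsing_inv K hdet, Matrix.mul_one,
      ← Matrix.mul_assoc K'⁻¹, Matrix.nonsing_inv_mul K' hdet', Matrix.one_mul] at h1
    exact h1
  have hent : ∀ i j : Fin n, K⁻¹ i.rev j.rev * (if j.val % 2 = 0 then b else a) =
      (if i.val % 2 = 0 then a else b) * K⁻¹ i j := by
    intro i j
    have h1 := congrFun (congrFun hmul2 i) j
    rw [Matrix.mul_diagonal, Matrix.diagonal_mul, hinv'] at h1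
    exact h1
  have hsi : K⁻¹.IsSymm := by
    unfold Matrix.IsSymm
    rw [Matrix.transpose_nonsing_inv, hsymm.eq]
  by_cases ha0 : a = 0
  · by_cases hb0 : b = 0
    · have hKK : K = K' := by
        ext i j
        by_cases hij : i = j
        · subst hij
          rw [hK'']
          rcases Nat.mod_two_eq_zero_or_one i.val with h | h
          · rw [hda i h, hdb _ ((hrev i).1.2 h), ha0, hb0]
          · rw [hdb i h, hda _ ((hrev i).2.2 h), ha0, hb0]
        · exact hoff i j hij
      calc K⁻¹ i j = K'⁻¹ i j := by rw [← hKK]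
        _ = K⁻¹ i.rev j.rev := by rw [hinv']; rfl
    · have h1 := hent j i
      rw [if_pos hi, if_neg (by omega), mul_comm] at h1
      have h2 := mul_left_cancel₀ hb0 h1
      rw [hsi.apply i j, hsi.apply i.rev j.rev] at h2
      exact h2.symm
  · have h1 := hent i j
    rw [if_neg (by omega), if_pos hi, mul_comm] at h1
    exact (mul_left_cancel₀ ha0 h1).symm

/-- **The answer to Q1 is negative.**  (1) The statement of Q1 is false.  (2) For every even
`n ≥ 4` the coloured `n`-cycle `altCycle n` has only the trivial symmetry, but the binomial linear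
form `x_{0,1} - x_{n-2,n-1}` lies in the vanishing ideal, and it is not induced by symmetries. -/
theorem result : ¬ Statement ∧
    ∀ n : ℕ, ∀ hn : 4 ≤ n, Even n →
      (altCycle n).graph = SimpleGraph.cycleGraph n ∧
      (∀ σ, IsSymmetry (altCycle n) σ → σ = 1) ∧
      IsBinomialForm (X s(⟨0, by omega⟩, ⟨1, by omega⟩) - X s(⟨n - 2, by omega⟩, ⟨n - 1, by omega⟩) :
        MvPolynomial (Sym2 (Fin n)) ℝ) ∧
      Vanishes (altCycle n)
        (X s(⟨0, by omega⟩, ⟨1, by omega⟩) - X s(⟨n - 2, by omega⟩, ⟨n - 1, by omega⟩)) ∧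
      ¬ InducedBySymmetries (altCycle n)
        (X s(⟨0, by omega⟩, ⟨1, by omega⟩) - X s(⟨n - 2, by omega⟩, ⟨n - 1, by omega⟩)) := by
  have main : ∀ n : ℕ, ∀ hn : 4 ≤ n, Even n →
      (altCycle n).graph = SimpleGraph.cycleGraph n ∧
      (∀ σ, IsSymmetry (altCycle n) σ → σ = 1) ∧
      IsBinomialForm (X s(⟨0, by omega⟩, ⟨1, by omega⟩) - X s(⟨n - 2, by omega⟩, ⟨n - 1, by omega⟩) :
        MvPolynomial (Sym2 (Fin n)) ℝ) ∧
      Vanishes (altCycle n)
        (X s(⟨0, by omega⟩, ⟨1, by omega⟩) - X s(⟨n - 2, by omega⟩, ⟨n - 1, by omega⟩)) ∧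
      ¬ InducedBySymmetries (altCycle n)
        (X s(⟨0, by omega⟩, ⟨1, by omega⟩) - X s(⟨n - 2, by omega⟩, ⟨n - 1, by omega⟩)) := by
    intro n hn he
    have hne : (s(⟨0, by omega⟩, ⟨1, by omega⟩) : Sym2 (Fin n)) ≠
        s(⟨n - 2, by omega⟩, ⟨n - 1, by omega⟩) := by
      intro h
      rw [Sym2.eq_iff] at h
      simp only [Fin.mk.injEq] at h
      omega
    have hbin : (X s(⟨0, by omega⟩, ⟨1, by omega⟩) -
        X s(⟨n - 2, by omega⟩, ⟨n - 1, by omega⟩) :
        MvPolynomial (Sym2 (Fin n)) ℝ).support.card = 2 := by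
      classical
      have hsup : (X s(⟨0, by omega⟩, ⟨1, by omega⟩) -
          X s(⟨n - 2, by omega⟩, ⟨n - 1, by omega⟩) :
          MvPolynomial (Sym2 (Fin n)) ℝ).support =
          {Finsupp.single s(⟨0, by omega⟩, ⟨1, by omega⟩) 1,
            Finsupp.single s(⟨n - 2, by omega⟩, ⟨n - 1, by omega⟩) 1} := by
        ext d
        rw [mem_support_iff, coeff_sub, coeff_X, coeff_X]
        simp only [Finset.mem_insert, Finset.mem_singleton]
        by_cases h1 : Finsupp.single (s(⟨0, by omega⟩, ⟨1, by omega⟩) : Sym2 (Fin n)) 1 = d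
        · have h2 : Finsupp.single (s(⟨n - 2, by omega⟩, ⟨n - 1, by omega⟩) : Sym2 (Fin n)) 1 ≠ d := by
            rw [← h1]
            intro h
            exact hne (Finsupp.single_left_injective one_ne_zero h).symm
          rw [if_pos h1, if_neg h2]
          simp [h1]
        · by_cases h2 : Finsupp.single (s(⟨n - 2, by omega⟩, ⟨n - 1, by omega⟩) : Sym2 (Fin n)) 1 = d
          · rw [if_neg h1, if_pos h2]
            simp [h2]
          · rw [if_neg h1, if_neg h2]
            simp [Ne.symm h1, Ne.symm h2]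
      rw [hsup]
      refine Finset.card_pair fun h => hne ?_
      exact Finsupp.single_left_injective one_ne_zero h
    refine ⟨rfl, fun σ hσ => symmetry_eq hn he hσ, ⟨?_, hbin⟩, ?_, ?_⟩
    · exact (isHomogeneous_X ℝ _).sub (isHomogeneous_X ℝ _)
    · intro K hK hu
      rw [map_sub, eval_X, eval_X]
      have h1 := inv_rev hn he hK hu (i := ⟨0, by omega⟩) (j := ⟨1, by omega⟩) rfl rfl
      have hsi : K⁻¹.IsSymm := by
        unfold Matrix.IsSymm
        rw [Matrix.transpose_nonsing_inv, hK.1.eq]
      have e0 : Fin.rev (⟨0, by omega⟩ : Fin n) = ⟨n - 1, by omega⟩ := Fin.ext (by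
        rw [Fin.val_rev])
      have e1 : Fin.rev (⟨1, by omega⟩ : Fin n) = ⟨n - 2, by omega⟩ := Fin.ext (by
        rw [Fin.val_rev])
      rw [e0, e1, hsi.apply ⟨n - 2, by omega⟩ ⟨n - 1, by omega⟩] at h1
      change K⁻¹ (min _ _) (max _ _) - K⁻¹ (min _ _) (max _ _) = 0
      rw [min_eq_left, max_eq_right, min_eq_left, max_eq_right, sub_eq_zero]
      · exact h1
      all_goals
        rw [Fin.mk_le_mk]
        omega
    · intro h
      have hsub : {g : MvPolynomial (Sym2 (Fin n)) ℝ | ∃ σ, IsSymmetry (altCycle n) σ ∧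
          ∃ i j, g = X s(i, j) - X s(σ i, σ j)} ⊆ {0} := by
        rintro g ⟨σ, hσ, i, j, rfl⟩
        rw [symmetry_eq hn he hσ]
        simp
      have h2 := Submodule.span_mono hsub h
      rw [Submodule.span_zero_singleton, Submodule.mem_bot] at h2
      rw [h2] at hbin
      simp at hbin
  refine ⟨fun h => ?_, main⟩
  obtain ⟨h1, -, h2, h3, h4⟩ := main 4 le_rfl ⟨2, rfl⟩
  exact h4 (h 4 (by norm_num) _ h1 _ h2 h3)

end Pool.Agent.Results.MP_c04d7c_ag.EvenCycles
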